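import Pool.Agent.K3h19.RV.Sqrt

/-!
# The window of Rivera: definitions and the number of the exceptions

The even `N` for which there are many primes `p` between `√N` and `4 √N` such that `N - p` has at most `r` prime
factors, all of them large (`Rich`), and the number of the exceptions, for every `r ≥ 2`
(`Pool.Agent.K3h19.RV.few`).
-/

set_option autoImplicit false

namespace Pool.Agent.T9h59.RV

open Finset

/-- the variable part of the singular series of the Goldbach problem -/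
noncomputable def sing (N : ℕ) : ℝ :=
  ∏ p ∈ N.primeFactors.erase 2, (((p : ℝ) - 1) / ((p : ℝ) - 2))

open Classical in
/-- The number of the primes `p < N` with `√N < p < 4 √N` such that `N - p` has at most `r` prime
factors (counted with multiplicity), all of them at least `w`. -/
noncomputable def inSqrt (r : ℕ) (w : ℝ) (N : ℕ) : ℕ :=
  ((range N).filter (fun p : ℕ => p.Prime ∧ √(N : ℝ) < p ∧ (p : ℝ) < 4 * √(N : ℝ) ∧
    (N - p).primeFactorsList.length ≤ r ∧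
    ∀ q : ℕ, q.Prime → q ∣ (N - p) → w ≤ q)).card

/-- There are at least `δ 𝔖(N) √N / (log N) ^ 2` primes `p` with `√N < p < 4 √N` such that `N - p` has at
most `r` prime factors, all of them at least `N ^ (1/16)`. -/
def Rich (r : ℕ) (δ : ℝ) (N : ℕ) : Prop :=
  δ * (sing N * (√(N : ℝ) / Real.log N ^ 2)) ≤ (inSqrt r ((N : ℝ) ^ ((1 : ℝ) / 16)) N : ℝ)

/-- the constant of Richert, `Λ_r = r + 1 - log (4 / (1 + 3 ^ (-r))) / log 3` -/
noncomputable def Lam (r : ℕ) : ℝ := r + 1 - Real.log (4 / (1 + (1 / 3) ^ r)) / Real.log 3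

/-- The exponent `s` is admissible for `r` prime factors: `s > 0` and `s > 2 / Λ_r - 1/2`. -/
def Expo (r : ℕ) (s : ℝ) : Prop := 2 ≤ r ∧ 0 < s ∧ 2 / Lam r - 1 / 2 < s

theorem Lam_eq (r : ℕ) : Lam r = Pool.Agent.K3h19.RV.Lam r := by
  have hL0 : 0 < Real.log 3 := by linarith [Pool.Agent.K3h19.RV.log3_pos]
  unfold Lam Pool.Agent.K3h19.RV.Lam
  have h3 : (0 : ℝ) < 3 ^ r := by positivity
  have e1 : (4 : ℝ) / (1 + (1 / 3) ^ r) = 3 ^ r / ((3 ^ r + 1) / 4) := by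
    rw [div_pow, one_pow]
    field_simp
  rw [e1, Real.log_div (by positivity) (by positivity), Real.log_pow, sub_div,
    mul_div_assoc, div_self hL0.ne']
  ring

/-- the values for `r = 2, 3, 4` -/
theorem expo_num : Expo 2 (591 / 1000) ∧ Expo 3 (222 / 1000) ∧ Expo 4 (34 / 1000) := by
  refine ⟨⟨by norm_num, by norm_num, ?_⟩, ⟨by norm_num, by norm_num, ?_⟩, ⟨by norm_num, by norm_num, ?_⟩⟩
  · rw [Lam_eq]
    have h := Pool.Agent.K3h19.RV.lam_two
    have : 2 / Pool.Agent.K3h19.RV.Lam 2 ≤ 2 / (1 + 5 / 6) :=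
      div_le_div_of_nonneg_left (by norm_num) (by norm_num) h
    norm_num at this ⊢
    linarith
  · rw [Lam_eq]
    have h := Pool.Agent.K3h19.RV.lam_three
    have : 2 / Pool.Agent.K3h19.RV.Lam 3 ≤ 2 / (1 + 131 / 74) :=
      div_le_div_of_nonneg_left (by norm_num) (by norm_num) h
    norm_num at this ⊢
    linarith
  · rw [Lam_eq]
    have h := Pool.Agent.K3h19.RV.lam_four
    have : 2 / Pool.Agent.K3h19.RV.Lam 4 ≤ 2 / (1 + 151 / 55) :=
      div_le_div_of_nonneg_left (by norm_num) (by norm_num) h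
    norm_num at this ⊢
    linarith

/-- the number of the exceptions -/
theorem count (r : ℕ) (s : ℝ) (h : Expo r s) : ∃ δ : ℝ, 0 < δ ∧ ∃ C : ℝ, ∀ X : ℕ, 1 ≤ X →
    ({t : ℕ | 1 ≤ t ∧ t ≤ X ∧ Even t ∧ ¬ Rich r δ t}.ncard : ℝ) ≤ C * (X : ℝ) ^ s := by
  classical
  obtain ⟨hr, hs0, hs⟩ := h
  rw [Lam_eq] at hs
  obtain ⟨δ, C, hδ, hC, h⟩ := Pool.Agent.K3h19.RV.few r hr s hs0 hs
  refine ⟨δ, hδ, C, fun X hX => le_trans (le_of_eq ?_) (h X hX)⟩
  congr 1
  rw [← Set.ncard_coe_finset]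
  congr 1
  ext t
  simp only [coe_filter, mem_Icc, Set.mem_ofPred_eq, Rich, not_le]
  rw [← mul_assoc, and_assoc]
  exact Iff.rfl

/-- the same with an arbitrarily small addition to the exponent -/
theorem count' (r : ℕ) (s : ℝ) (h : Expo r s) : ∃ δ : ℝ, 0 < δ ∧ ∀ ε : ℝ, 0 < ε → ∃ C : ℝ, ∀ X : ℕ, 1 ≤ X →
    ({t : ℕ | 1 ≤ t ∧ t ≤ X ∧ Even t ∧ ¬ Rich r δ t}.ncard : ℝ) ≤ C * (X : ℝ) ^ (s + ε) := by
  obtain ⟨δ, hδ, C, hC⟩ := count r s h
  refine ⟨δ, hδ, fun ε hε => ⟨|C|, fun X hX => (hC X hX).trans ?_⟩⟩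
  have hX1 : (1 : ℝ) ≤ X := by exact_mod_cast hX
  calc C * (X : ℝ) ^ s ≤ |C| * (X : ℝ) ^ s := mul_le_mul_of_nonneg_right (le_abs_self C) (by positivity)
    _ ≤ |C| * (X : ℝ) ^ (s + ε) := mul_le_mul_of_nonneg_left
        (Real.rpow_le_rpow_of_exponent_le hX1 (by linarith)) (abs_nonneg C)

end Pool.Agent.T9h59.RV
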